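import Mathlib
import Pool.Agent.helper68.AM.Spec

/-!
Project AM (MP_d52931_gt), module KL: the Kusmin-Landau inequality.
-/

set_option autoImplicit false

namespace AM

open Finset

/-- cotangent of `π D` -/
noncomputable def KL_c (D : ℝ) : ℝ := Real.cos (Real.pi * D) / Real.sin (Real.pi * D)

/-- `1 / (1 - e(D))` -/
noncomputable def KL_C (D : ℝ) : ℂ := (1 + (KL_c D : ℂ) * Complex.I) / 2

theorem KL_norm_ee (t : ℝ) : ‖ee t‖ = 1 := by
  unfold ee
  exact Complex.norm_exp_ofReal_mul_I _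

theorem KL_ee_add (x y : ℝ) : ee (x + y) = ee x * ee y := by
  unfold ee
  rw [← Complex.exp_add]
  congr 1
  push_cast
  ring

theorem KL_ee_eq (D : ℝ) : ee D = (1 - 2 * (Real.sin (Real.pi * D) : ℂ) ^ 2) +
    2 * (Real.sin (Real.pi * D) : ℂ) * (Real.cos (Real.pi * D) : ℂ) * Complex.I := by
  unfold ee
  rw [Complex.exp_mul_I, ← Complex.ofReal_cos, ← Complex.ofReal_sin]
  have h : 2 * Real.pi * D = 2 * (Real.pi * D) := by ring
  rw [h, Real.cos_two_mul, Real.sin_two_mul]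
  have h2 := Real.sin_sq_add_cos_sq (Real.pi * D)
  have h3 : Real.cos (Real.pi * D) ^ 2 = 1 - Real.sin (Real.pi * D) ^ 2 := by linarith
  rw [h3]
  push_cast
  ring

theorem KL_key (D : ℝ) (h : Real.sin (Real.pi * D) ≠ 0) : 1 + ee D * KL_C D = KL_C D := by
  rw [KL_ee_eq]
  unfold KL_C KL_c
  have h2 := Real.sin_sq_add_cos_sq (Real.pi * D)
  have h2' : ((Real.sin (Real.pi * D) : ℂ)) ^ 2 + (Real.cos (Real.pi * D) : ℂ) ^ 2 = 1 := by
    exact_mod_cast h2
  have h' : (Real.sin (Real.pi * D) : ℂ) ≠ 0 := by exact_mod_cast h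
  rw [Complex.ofReal_div]
  set s : ℂ := (Real.sin (Real.pi * D) : ℂ)
  set c : ℂ := (Real.cos (Real.pi * D) : ℂ)
  have hI : Complex.I ^ 2 = -1 := Complex.I_sq
  field_simp
  linear_combination (2 * c ^ 2 * s) * hI - (2 * s) * h2'

theorem KL_sin (D θ : ℝ) (h1 : θ ≤ D) (h2 : D ≤ 1 - θ) (hθ : 0 < θ) :
    2 * θ ≤ Real.sin (Real.pi * D) := by
  have hpi := Real.pi_pos
  rcases le_total D (1 / 2) with h | h
  · have h3 := Real.mul_le_sin (x := Real.pi * D) (by nlinarith) (by nlinarith)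
    have e : 2 / Real.pi * (Real.pi * D) = 2 * D := by field_simp
    rw [e] at h3
    linarith
  · have h3 := Real.mul_le_sin (x := Real.pi * (1 - D)) (by nlinarith) (by nlinarith)
    have e : 2 / Real.pi * (Real.pi * (1 - D)) = 2 * (1 - D) := by field_simp
    have e2 : Real.sin (Real.pi * (1 - D)) = Real.sin (Real.pi * D) := by
      rw [show Real.pi * (1 - D) = Real.pi - Real.pi * D by ring, Real.sin_pi_sub]
    rw [e, e2] at h3
    linarith

theorem KL_c_le (D θ : ℝ) (h1 : θ ≤ D) (h2 : D ≤ 1 - θ) (hθ : 0 < θ) :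
    |KL_c D| ≤ 1 / (2 * θ) := by
  have hs := KL_sin D θ h1 h2 hθ
  unfold KL_c
  rw [abs_div, abs_of_pos (lt_of_lt_of_le (by positivity) hs)]
  exact div_le_div₀ zero_le_one (Real.abs_cos_le_one _) (by positivity) hs

theorem KL_normC (D θ : ℝ) (h1 : θ ≤ D) (h2 : D ≤ 1 - θ) (hθ : 0 < θ) :
    ‖KL_C D‖ ≤ 1 / (4 * θ) ∧ ‖1 - KL_C D‖ ≤ 1 / (4 * θ) := by
  have hs := KL_sin D θ h1 h2 hθ
  have hs0 : 0 < Real.sin (Real.pi * D) := lt_of_lt_of_le (by positivity) hs
  have h3 := Real.sin_sq_add_cos_sq (Real.pi * D)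
  have key : (1 / 2 : ℝ) ^ 2 + (KL_c D / 2) ^ 2 ≤ (1 / (4 * θ)) ^ 2 := by
    have e : (1 / 2 : ℝ) ^ 2 + (KL_c D / 2) ^ 2 = (1 / (2 * Real.sin (Real.pi * D))) ^ 2 := by
      unfold KL_c
      field_simp
      linarith
    rw [e]
    have h4 : 1 / (2 * Real.sin (Real.pi * D)) ≤ 1 / (4 * θ) :=
      one_div_le_one_div_of_le (by positivity) (by linarith)
    have h5 : 0 ≤ 1 / (2 * Real.sin (Real.pi * D)) := by positivity
    nlinarith
  have hC : ∀ ε : ℝ, ε ^ 2 = 1 → ‖((1 / 2 : ℝ) : ℂ) + ((ε * (KL_c D / 2) : ℝ) : ℂ) * Complex.I‖ ≤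
      1 / (4 * θ) := by
    intro ε hε
    apply le_of_sq_le_sq _ (by positivity)
    rw [Complex.sq_norm, Complex.normSq_add_mul_I, mul_pow, hε, one_mul]
    exact key
  constructor
  · have e : KL_C D = ((1 / 2 : ℝ) : ℂ) + ((1 * (KL_c D / 2) : ℝ) : ℂ) * Complex.I := by
      unfold KL_C; push_cast; ring
    rw [e]
    exact hC 1 (by norm_num)
  · have e : 1 - KL_C D = ((1 / 2 : ℝ) : ℂ) + (((-1) * (KL_c D / 2) : ℝ) : ℂ) * Complex.I := by
      unfold KL_C; push_cast; ring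
    rw [e]
    exact hC (-1) (by norm_num)

theorem KL_c_anti (D D' : ℝ) (h0 : 0 < D') (h1 : D' ≤ D) (h2 : D < 1) : KL_c D ≤ KL_c D' := by
  have hpi := Real.pi_pos
  have hs : 0 < Real.sin (Real.pi * D) :=
    Real.sin_pos_of_pos_of_lt_pi (by nlinarith) (by nlinarith)
  have hs' : 0 < Real.sin (Real.pi * D') :=
    Real.sin_pos_of_pos_of_lt_pi (by nlinarith) (by nlinarith)
  unfold KL_c
  rw [div_le_div_iff₀ hs hs']
  have h3 : 0 ≤ Real.sin (Real.pi * D - Real.pi * D') :=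
    Real.sin_nonneg_of_nonneg_of_le_pi (by nlinarith) (by nlinarith)
  rw [Real.sin_sub] at h3
  linarith

theorem KL_diff (D D' : ℝ) (h0 : 0 < D') (h1 : D' ≤ D) (h2 : D < 1) :
    ‖KL_C D' - KL_C D‖ = (KL_c D' - KL_c D) / 2 := by
  have h3 := KL_c_anti D D' h0 h1 h2
  have e : KL_C D' - KL_C D = (((KL_c D' - KL_c D) / 2 : ℝ) : ℂ) * Complex.I := by
    unfold KL_C; push_cast; ring
  rw [e, norm_mul, Complex.norm_I, mul_one, Complex.norm_real, Real.norm_of_nonneg]
  linarith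

theorem KL : KL_stmt := by
  intro n x θ hθ hθ2 h1 h2 h3
  rcases Nat.eq_zero_or_pos n with hn | hn
  · subst hn
    rw [zero_add, Finset.sum_range_one, KL_norm_ee, le_div_iff₀ hθ]
    linarith
  have key : ∀ m : ℕ, m + 1 ≤ n →
      ‖∑ k ∈ range (m + 1), ee (x k) + ee (x (m + 1)) * KL_C (x (m + 1) - x m)‖ ≤
        1 / (4 * θ) + (KL_c (x (m + 1) - x m) - KL_c (x 1 - x 0)) / 2 := by
    intro m
    induction m with
    | zero =>
      intro _
      have ha := h1 0 hn
      have hb := h2 0 hn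
      rw [zero_add] at ha hb
      have hs := KL_sin (x 1 - x 0) θ ha hb hθ
      have hk := KL_key (x 1 - x 0) (ne_of_gt (lt_of_lt_of_le (by positivity) hs))
      have e : ∑ k ∈ range (0 + 1), ee (x k) + ee (x (0 + 1)) * KL_C (x (0 + 1) - x 0) =
          ee (x 0) * KL_C (x 1 - x 0) := by
        rw [zero_add, Finset.sum_range_one]
        have e1 : ee (x 1) = ee (x 0) * ee (x 1 - x 0) := by
          rw [← KL_ee_add]
          congr 1
          ring
        rw [e1]
        linear_combination ee (x 0) * hk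
      rw [e, norm_mul, KL_norm_ee, one_mul, zero_add, sub_self, zero_div, add_zero]
      exact (KL_normC _ θ ha hb hθ).1
    | succ m ih =>
      intro hm
      have ih' := ih (by omega)
      have ha := h1 (m + 1) (by omega)
      have hb := h2 (m + 1) (by omega)
      have ha' := h1 m (by omega)
      have hb' := h2 m (by omega)
      have hanti := h3 m (by omega)
      have hs := KL_sin _ θ ha hb hθ
      have hk := KL_key (x (m + 1 + 1) - x (m + 1))
        (ne_of_gt (lt_of_lt_of_le (by positivity) hs))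
      have e : ∑ k ∈ range (m + 1 + 1), ee (x k) +
          ee (x (m + 1 + 1)) * KL_C (x (m + 1 + 1) - x (m + 1)) =
          (∑ k ∈ range (m + 1), ee (x k) + ee (x (m + 1)) * KL_C (x (m + 1) - x m)) +
          ee (x (m + 1)) * (KL_C (x (m + 1 + 1) - x (m + 1)) - KL_C (x (m + 1) - x m)) := by
        rw [Finset.sum_range_succ _ (m + 1)]
        have e1 : ee (x (m + 1 + 1)) = ee (x (m + 1)) * ee (x (m + 1 + 1) - x (m + 1)) := by
          rw [← KL_ee_add]
          congr 1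
          ring
        rw [e1]
        linear_combination ee (x (m + 1)) * hk
      rw [e]
      have hd := KL_diff (x (m + 1) - x m) (x (m + 1 + 1) - x (m + 1)) (by linarith) hanti
        (by linarith)
      have h4 := norm_add_le
        (∑ k ∈ range (m + 1), ee (x k) + ee (x (m + 1)) * KL_C (x (m + 1) - x m))
        (ee (x (m + 1)) * (KL_C (x (m + 1 + 1) - x (m + 1)) - KL_C (x (m + 1) - x m)))
      rw [norm_mul, KL_norm_ee, one_mul, hd] at h4
      linarith
  obtain ⟨m, rfl⟩ : ∃ m, n = m + 1 := ⟨n - 1, by omega⟩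
  have hkm := key m le_rfl
  have ha := h1 m (by omega)
  have hb := h2 m (by omega)
  have ha0 := h1 0 (by omega)
  have hb0 := h2 0 (by omega)
  rw [zero_add] at ha0 hb0
  have hc := (abs_le.1 (KL_c_le _ θ ha hb hθ)).2
  have hc0 := (abs_le.1 (KL_c_le _ θ ha0 hb0 hθ)).1
  have hn2 := (KL_normC _ θ ha hb hθ).2
  have e : ∑ k ∈ range (m + 1 + 1), ee (x k) =
      (∑ k ∈ range (m + 1), ee (x k) + ee (x (m + 1)) * KL_C (x (m + 1) - x m)) +
        ee (x (m + 1)) * (1 - KL_C (x (m + 1) - x m)) := by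
    rw [Finset.sum_range_succ _ (m + 1)]
    ring
  rw [e]
  have h4 := norm_add_le
    (∑ k ∈ range (m + 1), ee (x k) + ee (x (m + 1)) * KL_C (x (m + 1) - x m))
    (ee (x (m + 1)) * (1 - KL_C (x (m + 1) - x m)))
  rw [norm_mul, KL_norm_ee, one_mul] at h4
  have e2 : 1 / θ = 1 / (4 * θ) + (1 / (2 * θ) + 1 / (2 * θ)) / 2 + 1 / (4 * θ) := by
    field_simp; norm_num
  rw [e2]
  linarith

end AM
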