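import Mathlib
import Pool.Agent.helper68.AM.Spec

/-!
Project AM (MP_d52931_gt), module RF: integers without prime factors in an interval.
-/

set_option autoImplicit false

namespace AM

open Finset

/-- the multiplicative function `n ↦ 1 / n` -/
noncomputable def RF_f : ℕ →* ℝ where
  toFun n := (n : ℝ)⁻¹
  map_one' := by simp
  map_mul' a b := by push_cast; rw [mul_inv]

theorem RF_f_apply (n : ℕ) : RF_f n = (n : ℝ)⁻¹ := rfl

theorem RF_prod (N : ℕ) (hN : 1 ≤ N) :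
    ∏ p ∈ Nat.primesBelow (N + 1), (1 - RF_f p)⁻¹ ≤ N := by
  induction N, hN using Nat.le_induction with
  | base =>
    have h : Nat.primesBelow (1 + 1) = ∅ := by decide
    rw [h, Finset.prod_empty]
    norm_num
  | succ N hN ih =>
    rw [Nat.primesBelow_succ]
    split_ifs with hp
    · rw [Finset.prod_insert (Nat.notMem_primesBelow _), RF_f_apply]
      have hN' : (0 : ℝ) < N := by exact_mod_cast hN
      have e : (1 - (((N + 1 : ℕ) : ℝ))⁻¹)⁻¹ = ((N : ℝ) + 1) / N := by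
        push_cast
        have h1 : (1 : ℝ) - ((N : ℝ) + 1)⁻¹ = N / (N + 1) := by field_simp; ring
        rw [h1, inv_div]
      rw [e]
      have h2 : ((N : ℝ) + 1) / N * ∏ p ∈ Nat.primesBelow (N + 1), (1 - RF_f p)⁻¹ ≤
          ((N : ℝ) + 1) / N * N := mul_le_mul_of_nonneg_left ih (by positivity)
      refine h2.trans (le_of_eq ?_)
      push_cast
      field_simp
    · refine ih.trans ?_
      push_cast
      linarith

/-- the sum over the integers with small prime factors -/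
theorem RF_smooth (N : ℕ) (hN : 1 ≤ N) (V : Finset ℕ)
    (hV : ∀ v ∈ V, ∀ p : ℕ, p.Prime → p ∣ v → p ≤ N) : ∑ v ∈ V, (v : ℝ)⁻¹ ≤ N := by
  classical
  have h := (EulerProduct.summable_and_hasSum_smoothNumbers_prod_primesBelow_geometric
    (f := RF_f) (fun {p} hp => by
      rw [RF_f_apply, norm_inv, Real.norm_natCast]
      exact inv_lt_one_of_one_lt₀ (by exact_mod_cast hp.one_lt)) (N + 1)).2
  have hmem : ∀ v ∈ V, v ∈ Nat.smoothNumbers (N + 1) := by
    intro v hv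
    rw [Nat.mem_smoothNumbers']
    intro p hp hpv
    exact Nat.lt_succ_of_le (hV v hv p hp hpv)
  have h1 : ∑ v ∈ V, (v : ℝ)⁻¹ =
      ∑ v ∈ V.subtype (fun v => v ∈ Nat.smoothNumbers (N + 1)), ((v : ℕ) : ℝ)⁻¹ :=
    (Finset.sum_subtype_of_mem (fun v : ℕ => (v : ℝ)⁻¹) hmem).symm
  rw [h1]
  refine le_trans ?_ (RF_prod N hN)
  exact sum_le_hasSum _ (fun i _ => by positivity) h

theorem RF_factor (P0 : ℕ) : ∀ n : ℕ, n ≠ 0 → ∃ v w : ℕ, v * w = n ∧
    (∀ p : ℕ, p.Prime → p ∣ v → p ≤ P0) ∧ (∀ p : ℕ, p.Prime → p ∣ w → P0 < p) := by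
  intro n
  induction n using Nat.recOnMul with
  | zero => intro h; exact absurd rfl h
  | one =>
    intro _
    refine ⟨1, 1, rfl, ?_, ?_⟩ <;>
    · intro p hp h
      exact absurd (Nat.dvd_one.1 h) hp.one_lt.ne'
  | prime p hp =>
    intro _
    by_cases h : p ≤ P0
    · refine ⟨p, 1, mul_one p, ?_, ?_⟩
      · intro q hq hqp
        rw [(Nat.prime_dvd_prime_iff_eq hq hp).1 hqp]
        exact h
      · intro q hq hq1
        exact absurd (Nat.dvd_one.1 hq1) hq.one_lt.ne'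
    · refine ⟨1, p, one_mul p, ?_, ?_⟩
      · intro q hq hq1
        exact absurd (Nat.dvd_one.1 hq1) hq.one_lt.ne'
      · intro q hq hqp
        rw [(Nat.prime_dvd_prime_iff_eq hq hp).1 hqp]
        exact not_le.1 h
  | mul a b iha ihb =>
    intro hab
    have ha : a ≠ 0 := left_ne_zero_of_mul hab
    have hb : b ≠ 0 := right_ne_zero_of_mul hab
    obtain ⟨v, w, h1, h2, h3⟩ := iha ha
    obtain ⟨v', w', h1', h2', h3'⟩ := ihb hb
    refine ⟨v * v', w * w', ?_, ?_, ?_⟩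
    · rw [← h1, ← h1']; ring
    · intro p hp hpv
      rcases hp.dvd_mul.1 hpv with h | h
      · exact h2 p hp h
      · exact h2' p hp h
    · intro p hp hpv
      rcases hp.dvd_mul.1 hpv with h | h
      · exact h3 p hp h
      · exact h3' p hp h

theorem RF : RF_stmt := by
  classical
  intro P0 Q0 x hP0 hQ0 hx
  set V := (Icc 1 Q0).filter (fun v => ∀ p : ℕ, p.Prime → p ∣ v → p ≤ P0) with hVdef
  set W := (Icc 1 Q0).filter (fun w => ∀ p : ℕ, p.Prime → p ∣ w → P0 < p) with hWdef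
  set S := (Icc 1 x).filter (fun n => ∀ p ∈ Wp P0 Q0, ¬ p ∣ n) with hSdef
  have hS0 : 0 ≤ ∑ m ∈ S, 1 / (m : ℝ) := Finset.sum_nonneg fun m _ => by positivity
  have hW0 : 0 ≤ ∑ w ∈ W, (w : ℝ)⁻¹ := Finset.sum_nonneg fun m _ => by positivity
  have hV1 : ∑ v ∈ V, (v : ℝ)⁻¹ ≤ P0 :=
    RF_smooth P0 hP0 V fun v hv => (Finset.mem_filter.1 hv).2
  -- the logarithm is at most the product of the two sums
  have h1 : Real.log Q0 ≤ (∑ v ∈ V, (v : ℝ)⁻¹) * ∑ w ∈ W, (w : ℝ)⁻¹ := by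
    have ha : Real.log Q0 ≤ ∑ n ∈ Icc 1 Q0, (n : ℝ)⁻¹ := by
      have hb := log_add_one_le_harmonic Q0
      have hc : Real.log Q0 ≤ Real.log ((Q0 + 1 : ℕ) : ℝ) := by
        apply Real.log_le_log
        · exact_mod_cast (by omega : 0 < Q0)
        · push_cast; linarith
      rw [harmonic_eq_sum_Icc] at hb
      push_cast at hb hc
      exact hc.trans hb
    refine ha.trans ?_
    have hfac := RF_factor P0
    choose! fv fw hf1 hf2 hf3 using hfac
    have hne : ∀ n ∈ Icc 1 Q0, n ≠ 0 := fun n hn => by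
      have := (Finset.mem_Icc.1 hn).1
      omega
    have hinj : Set.InjOn (fun n => (fv n, fw n)) (Icc 1 Q0 : Finset ℕ) := by
      intro n hn n' hn' h
      have e1 : fv n = fv n' := congrArg Prod.fst h
      have e2 : fw n = fw n' := congrArg Prod.snd h
      rw [← hf1 n (hne n hn), ← hf1 n' (hne n' hn'), e1, e2]
    have hsub : (Icc 1 Q0).image (fun n => (fv n, fw n)) ⊆ V ×ˢ W := by
      intro z hz
      obtain ⟨n, hn, rfl⟩ := Finset.mem_image.1 hz
      have hn1 := Finset.mem_Icc.1 hn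
      have e := hf1 n (hne n hn)
      have hv0 : fv n ≠ 0 := fun h => by rw [h, zero_mul] at e; omega
      have hw0 : fw n ≠ 0 := fun h => by rw [h, mul_zero] at e; omega
      have hvd : fv n ≤ n := Nat.le_of_dvd (by omega) (Dvd.intro _ e)
      have hwd : fw n ≤ n := Nat.le_of_dvd (by omega) (Dvd.intro_left _ e)
      refine Finset.mem_product.2 ⟨Finset.mem_filter.2 ⟨Finset.mem_Icc.2 ⟨?_, ?_⟩, hf2 n (hne n hn)⟩,
        Finset.mem_filter.2 ⟨Finset.mem_Icc.2 ⟨?_, ?_⟩, hf3 n (hne n hn)⟩⟩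
      · exact Nat.one_le_iff_ne_zero.2 hv0
      · exact hvd.trans hn1.2
      · exact Nat.one_le_iff_ne_zero.2 hw0
      · exact hwd.trans hn1.2
    calc ∑ n ∈ Icc 1 Q0, (n : ℝ)⁻¹
        = ∑ n ∈ Icc 1 Q0, ((fv n : ℝ)⁻¹ * (fw n : ℝ)⁻¹) := by
          refine Finset.sum_congr rfl fun n hn => ?_
          rw [← mul_inv, ← Nat.cast_mul, hf1 n (hne n hn)]
      _ = ∑ z ∈ (Icc 1 Q0).image (fun n => (fv n, fw n)), ((z.1 : ℝ)⁻¹ * (z.2 : ℝ)⁻¹) := by
          rw [Finset.sum_image hinj]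
      _ ≤ ∑ z ∈ V ×ˢ W, ((z.1 : ℝ)⁻¹ * (z.2 : ℝ)⁻¹) :=
          Finset.sum_le_sum_of_subset_of_nonneg hsub fun z _ _ => by positivity
      _ = (∑ v ∈ V, (v : ℝ)⁻¹) * ∑ w ∈ W, (w : ℝ)⁻¹ := by
          rw [Finset.sum_mul_sum, Finset.sum_product]
  -- unique factorisation
  have h2 : (∑ m ∈ S, 1 / (m : ℝ)) * ∑ w ∈ W, (w : ℝ)⁻¹ ≤ 1 + Real.log x + Real.log Q0 := by
    have hprim : ∀ w ∈ W, ∀ p : ℕ, p.Prime → p ∣ w → p ∈ Wp P0 Q0 := by
      intro w hw p hp hpw
      have hw' := Finset.mem_filter.1 hw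
      have hw1 := Finset.mem_Icc.1 hw'.1
      refine Finset.mem_filter.2 ⟨Finset.mem_Ioc.2 ⟨hw'.2 p hp hpw, ?_⟩, hp⟩
      exact (Nat.le_of_dvd (by omega) hpw).trans hw1.2
    have hcop : ∀ m ∈ S, ∀ w ∈ W, Nat.Coprime w m := by
      intro m hm w hw
      rw [Nat.coprime_iff_gcd_eq_one]
      by_contra hg
      obtain ⟨p, hp, hpg⟩ := Nat.exists_prime_and_dvd hg
      exact (Finset.mem_filter.1 hm).2 p
        (hprim w hw p hp (hpg.trans (Nat.gcd_dvd_left _ _))) (hpg.trans (Nat.gcd_dvd_right _ _))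
    have hinj : Set.InjOn (fun z : ℕ × ℕ => z.1 * z.2) (S ×ˢ W : Finset (ℕ × ℕ)) := by
      rintro ⟨m, w⟩ h ⟨m', w'⟩ h' e
      have h := Finset.mem_product.1 h
      have h' := Finset.mem_product.1 h'
      have e : m * w = m' * w' := e
      have d1 : w ∣ w' :=
        Nat.Coprime.dvd_of_dvd_mul_left (hcop m' h'.1 w h.2) (Dvd.intro_left m e)
      have d2 : w' ∣ w :=
        Nat.Coprime.dvd_of_dvd_mul_left (hcop m h.1 w' h'.2) (Dvd.intro_left m' e.symm)
      have ew : w = w' := Nat.dvd_antisymm d1 d2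
      have hw0 : 0 < w := by
        have h3 : w ∈ W := h.2
        have := (Finset.mem_Icc.1 (Finset.mem_filter.1 h3).1).1
        omega
      subst ew
      have em : m = m' := Nat.eq_of_mul_eq_mul_right hw0 e
      rw [em]
    have hsub : (S ×ˢ W).image (fun z : ℕ × ℕ => z.1 * z.2) ⊆ Icc 1 (x * Q0) := by
      intro z hz
      obtain ⟨⟨m, w⟩, h, rfl⟩ := Finset.mem_image.1 hz
      have h := Finset.mem_product.1 h
      have hm : m ∈ S := h.1
      have hw : w ∈ W := h.2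
      have hm1 := Finset.mem_Icc.1 (Finset.mem_filter.1 hm).1
      have hw1 := Finset.mem_Icc.1 (Finset.mem_filter.1 hw).1
      exact Finset.mem_Icc.2 ⟨Nat.one_le_iff_ne_zero.2 (Nat.mul_ne_zero (by omega) (by omega)),
        Nat.mul_le_mul hm1.2 hw1.2⟩
    calc (∑ m ∈ S, 1 / (m : ℝ)) * ∑ w ∈ W, (w : ℝ)⁻¹
        = ∑ z ∈ S ×ˢ W, ((z.1 * z.2 : ℕ) : ℝ)⁻¹ := by
          rw [Finset.sum_mul_sum, Finset.sum_product]
          refine Finset.sum_congr rfl fun m _ => Finset.sum_congr rfl fun w _ => ?_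
          push_cast
          rw [mul_inv, one_div]
      _ = ∑ n ∈ (S ×ˢ W).image (fun z : ℕ × ℕ => z.1 * z.2), (n : ℝ)⁻¹ := by
          rw [Finset.sum_image hinj]
      _ ≤ ∑ n ∈ Icc 1 (x * Q0), (n : ℝ)⁻¹ :=
          Finset.sum_le_sum_of_subset_of_nonneg hsub fun z _ _ => by positivity
      _ ≤ 1 + Real.log ((x * Q0 : ℕ) : ℝ) := by
          have hb := harmonic_le_one_add_log (x * Q0)
          rw [harmonic_eq_sum_Icc] at hb
          push_cast at hb ⊢
          exact hb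
      _ = 1 + Real.log x + Real.log Q0 := by
          push_cast
          rw [Real.log_mul, add_assoc]
          · exact_mod_cast (by omega : x ≠ 0)
          · exact_mod_cast (by omega : Q0 ≠ 0)
  have hL0 : 0 ≤ 1 + Real.log x + Real.log Q0 :=
    le_trans (mul_nonneg hS0 hW0) h2
  calc (∑ m ∈ S, 1 / (m : ℝ)) * Real.log Q0
      ≤ (∑ m ∈ S, 1 / (m : ℝ)) * ((∑ v ∈ V, (v : ℝ)⁻¹) * ∑ w ∈ W, (w : ℝ)⁻¹) :=
        mul_le_mul_of_nonneg_left h1 hS0
    _ = (∑ v ∈ V, (v : ℝ)⁻¹) * ((∑ m ∈ S, 1 / (m : ℝ)) * ∑ w ∈ W, (w : ℝ)⁻¹) := by ring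
    _ ≤ (P0 : ℝ) * (1 + Real.log x + Real.log Q0) := by
        apply mul_le_mul hV1 h2 (mul_nonneg hS0 hW0)
        positivity

end AM
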