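import Pool.Agent.helper68.AM.SpecY
import Pool.Agent.helper31.AM.XA

/-!
Project sl: module XA5 (MP_d52931_gt): the number of indices of weight `g max (2 lx, ly)`.
-/

set_option autoImplicit false

namespace AM

open Pool.Agent.helper72.Sq Matrix

/-- counting through a map on a subset -/
lemma XA5_sub {α β : Type*} [DecidableEq β] (S : Set α) (π : α → β) (m : ℕ) (E : Finset β)
    (hfin : ∀ b, {a | a ∈ S ∧ π a = b}.Finite)
    (hE : ∀ b, b ∉ E → {a | a ∈ S ∧ π a = b}.ncard = m) :
    ∃ K0 : ℝ, 0 ≤ K0 ∧ ∀ A : Set β, A.Finite → {a | a ∈ S ∧ π a ∈ A}.Finite ∧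
      |(({a | a ∈ S ∧ π a ∈ A}.ncard : ℝ)) - m * (A.ncard : ℝ)| ≤ K0 := by
  have hinj : Function.Injective (Subtype.val : S → α) := Subtype.val_injective
  have himg : ∀ A : Set β, {a | a ∈ S ∧ π a ∈ A} = Subtype.val '' {a : S | π a.1 ∈ A} := by
    intro A
    ext a
    simp
    exact and_comm
  have himg' : ∀ b : β, {a | a ∈ S ∧ π a = b} = Subtype.val '' {a : S | π a.1 = b} := by
    intro b
    ext a
    simp
    exact and_comm
  obtain ⟨K0, hK0, hK⟩ := XA3_fib (fun a : S => π a.1) m E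
    (fun b => by
      have h := hfin b
      rw [himg'] at h
      exact Set.Finite.of_finite_image h hinj.injOn)
    (fun b hb => by
      have h := hE b hb
      rw [himg', Set.ncard_image_of_injective _ hinj] at h
      exact h)
  refine ⟨K0, hK0, fun A hA => ?_⟩
  obtain ⟨h1, h2⟩ := hK A hA
  rw [himg A, Set.ncard_image_of_injective _ hinj]
  exact ⟨h1.image _, h2⟩

/-- the letter of the quarter turn -/
def XA5_s (τ : Fin 4) : Bool := decide (τ.val % 2 = 0)

/-- the indices of the first kind -/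
def XA5_S : Set Ix := {i | ∃ w : List Bool, i.2.1 = w ++ [XA5_s i.2.2, XA5_s i.2.2]}

/-- the map of the first kind -/
def XA5_p (i : Ix) : Bool × List Bool := (i.1, i.2.1.dropLast)

/-- the map of the second kind -/
def XA5_q (i : Ix) : Bool × List Bool :=
  (i.1, if i.2.1.getLast? = some (!(XA5_s i.2.2)) then i.2.1.dropLast else i.2.1.dropLast.dropLast)

lemma XA5_len_fin (n : ℕ) : {i : Ix | i.2.1.length ≤ n}.Finite := by
  have h1 : {l : List Bool | l.length ≤ n}.Finite := List.finite_length_le Bool n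
  have h2 : {i : Ix | i.2.1.length ≤ n} =
      (Set.univ : Set Bool) ×ˢ ({l : List Bool | l.length ≤ n} ×ˢ (Set.univ : Set (Fin 4))) := by
    ext ⟨ε, w, τ⟩
    simp
  rw [h2]
  exact Set.finite_univ.prod (h1.prod Set.finite_univ)

lemma XA5_p_fin (b : Bool × List Bool) : {a | a ∈ XA5_S ∧ XA5_p a = b}.Finite := by
  refine (XA5_len_fin (b.2.length + 1)).subset ?_
  rintro ⟨ε, w, τ⟩ ⟨-, h⟩
  have h1 : w.dropLast = b.2 := congrArg Prod.snd h
  show w.length ≤ b.2.length + 1
  rw [← h1, List.length_dropLast]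
  omega

lemma XA5_q_fin (b : Bool × List Bool) : {a | a ∈ XA5_Sᶜ ∧ XA5_q a = b}.Finite := by
  refine (XA5_len_fin (b.2.length + 2)).subset ?_
  rintro ⟨ε, w, τ⟩ ⟨-, h⟩
  have h1 : (if w.getLast? = some (!(XA5_s τ)) then w.dropLast else w.dropLast.dropLast) = b.2 :=
    congrArg Prod.snd h
  show w.length ≤ b.2.length + 2
  rw [← h1]
  split_ifs
  · rw [List.length_dropLast]
    omega
  · rw [List.length_dropLast, List.length_dropLast]
    omega

lemma XA5_two (w v : List Bool) (a b c d : Bool) (h : w ++ [a, b] = v ++ [c, d]) :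
    w = v ∧ a = c ∧ b = d := by
  have h1 := List.append_inj' h rfl
  simpa using h1

lemma XA5_p_fibre (b : Bool × List Bool) (hb : b.2 ≠ []) :
    {a | a ∈ XA5_S ∧ XA5_p a = b} =
      (fun τ : Fin 4 => ((b.1, b.2 ++ [b.2.getLast hb], τ) : Ix)) ''
      {τ : Fin 4 | XA5_s τ = b.2.getLast hb} := by
  obtain ⟨ε, v⟩ := b
  simp only at hb
  ext ⟨ε', w', τ⟩
  simp only [Set.mem_ofPred_eq, Set.mem_image]
  constructor
  · rintro ⟨⟨w, hw⟩, h⟩
    have h1 : ε' = ε := congrArg Prod.fst h
    have h2 : w'.dropLast = v := congrArg Prod.snd h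
    have h3 : v = w ++ [XA5_s τ] := by
      have hw2 : w' = w ++ [XA5_s τ, XA5_s τ] := hw
      rw [← h2, hw2]
      simp [List.dropLast_append_of_ne_nil]
    have h4 : v.getLast hb = XA5_s τ := by
      simp [h3]
    refine ⟨τ, h4.symm, ?_⟩
    show ((ε, v ++ [v.getLast hb], τ) : Ix) = (ε', w', τ)
    have hw2 : w' = w ++ [XA5_s τ, XA5_s τ] := hw
    rw [h4, h1, hw2, h3]
    simp
  · rintro ⟨τ', h1, h2⟩
    have e1 : ε' = ε := (congrArg Prod.fst h2).symm
    have e2 : w' = v ++ [v.getLast hb] := (congrArg (fun x => x.2.1) h2).symm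
    have e3 : τ = τ' := (congrArg (fun x => x.2.2) h2).symm
    subst e3 e1
    refine ⟨⟨v.dropLast, ?_⟩, ?_⟩
    · show w' = v.dropLast ++ [XA5_s τ, XA5_s τ]
      rw [h1, e2]
      have h3 := List.dropLast_append_getLast hb
      have h4 : ∀ x : Bool, v.dropLast ++ [x] = v → v ++ [x] = v.dropLast ++ [x, x] := by
        intro x hx
        calc v ++ [x] = (v.dropLast ++ [x]) ++ [x] := by rw [hx]
          _ = v.dropLast ++ [x, x] := by simp
      exact h4 _ h3
    · show (ε', w'.dropLast) = (ε', v)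
      rw [e2]
      simp

lemma XA5_p_card (b : Bool × List Bool) (hb : b.2 ≠ []) :
    {a | a ∈ XA5_S ∧ XA5_p a = b}.ncard = 2 := by
  rw [XA5_p_fibre b hb, Set.ncard_image_of_injective _ (fun a b h => by simpa using h)]
  have key : ∀ s : Bool, {τ : Fin 4 | XA5_s τ = s}.ncard = 2 := by
    intro s
    have : {τ : Fin 4 | XA5_s τ = s} = {τ : Fin 4 | decide (τ.val % 2 = 0) = s} := rfl
    rw [this, Set.ncard_eq_toFinset_card']
    cases s <;> rfl
  exact key _

/-- the enumeration of the fibres of the second kind -/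
def XA5_e (b : Bool × List Bool) (x : Bool × Fin 4) : Ix :=
  (b.1, if x.1 then b.2 ++ [!(XA5_s x.2)] else b.2 ++ [!(XA5_s x.2), XA5_s x.2], x.2)

lemma XA5_e_inj (b : Bool × List Bool) : Function.Injective (XA5_e b) := by
  rintro ⟨c, τ⟩ ⟨c', τ'⟩ h
  have h3 : τ = τ' := congrArg (fun x : Ix => x.2.2) h
  subst h3
  have h2 : (if c then b.2 ++ [!(XA5_s τ)] else b.2 ++ [!(XA5_s τ), XA5_s τ]) =
    (if c' then b.2 ++ [!(XA5_s τ)] else b.2 ++ [!(XA5_s τ), XA5_s τ]) :=
    congrArg (fun x : Ix => x.2.1) h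
  have h4 := congrArg List.length h2
  cases c <;> cases c' <;> simp_all

lemma XA5_q_fibre (b : Bool × List Bool) (hb : b.2 ≠ []) :
    {a | a ∈ XA5_Sᶜ ∧ XA5_q a = b} = XA5_e b '' Set.univ := by
  obtain ⟨ε, v⟩ := b
  simp only at hb
  ext ⟨ε', w', τ⟩
  simp only [Set.mem_ofPred_eq, Set.mem_image, Set.mem_univ, true_and]
  constructor
  · rintro ⟨hS, h⟩
    have h1 : ε' = ε := congrArg Prod.fst h
    have h2 : (if w'.getLast? = some (!(XA5_s τ)) then w'.dropLast else w'.dropLast.dropLast) = v :=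
      congrArg Prod.snd h
    subst h1
    have hw' : w' ≠ [] := by
      rintro rfl
      simp at h2
      exact hb h2
    have hl := List.dropLast_append_getLast hw'
    have hg : w'.getLast? = some (w'.getLast hw') := List.getLast?_eq_some_getLast hw'
    by_cases hc : w'.getLast? = some (!(XA5_s τ))
    · rw [if_pos hc] at h2
      refine ⟨(true, τ), ?_⟩
      rw [hg] at hc
      have hc' : w'.getLast hw' = !(XA5_s τ) := Option.some.inj hc
      show (ε', v ++ [!(XA5_s τ)], τ) = (ε', w', τ)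
      rw [← h2, ← hc', hl]
    · rw [if_neg hc] at h2
      rw [hg] at hc
      have hc' : w'.getLast hw' = XA5_s τ := by
        by_contra hne
        apply hc
        congr 1
        revert hne
        generalize w'.getLast hw' = x
        generalize XA5_s τ = y
        cases x <;> cases y <;> simp
      have hw2 : w'.dropLast ≠ [] := by
        intro h5
        rw [h5] at h2
        simp at h2
        exact hb h2
      have hl2 := List.dropLast_append_getLast hw2
      have hdec : w' = v ++ [w'.dropLast.getLast hw2, XA5_s τ] := by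
        conv_lhs => rw [← hl, ← hl2, h2, hc']
        simp
      have hy : w'.dropLast.getLast hw2 = !(XA5_s τ) := by
        by_contra hne
        apply hS
        refine ⟨v, ?_⟩
        show w' = v ++ [XA5_s τ, XA5_s τ]
        have : w'.dropLast.getLast hw2 = XA5_s τ := by
          revert hne
          generalize w'.dropLast.getLast hw2 = x
          generalize XA5_s τ = y
          cases x <;> cases y <;> simp
        rw [this] at hdec
        exact hdec
      refine ⟨(false, τ), ?_⟩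
      show (ε', v ++ [!(XA5_s τ), XA5_s τ], τ) = (ε', w', τ)
      rw [← hy, ← hdec]
  · rintro ⟨⟨c, τ'⟩, h⟩
    have e1 : ε' = ε := (congrArg Prod.fst h).symm
    have e3 : τ = τ' := (congrArg (fun x => x.2.2) h).symm
    subst e1 e3
    have e2 : w' = (if c then v ++ [!(XA5_s τ)] else v ++ [!(XA5_s τ), XA5_s τ]) :=
      (congrArg (fun x => x.2.1) h).symm
    cases c
    · simp only [Bool.false_eq_true, if_false] at e2
      subst e2
      constructor
      · rintro ⟨w, hw⟩
        have h5 : v ++ [!(XA5_s τ), XA5_s τ] = w ++ [XA5_s τ, XA5_s τ] := hw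
        have h6 := (XA5_two _ _ _ _ _ _ h5).2.1
        revert h6
        cases XA5_s τ <;> simp
      · show (ε', if (v ++ [!(XA5_s τ), XA5_s τ]).getLast? = some (!(XA5_s τ)) then _ else _) = _
        have h5 : (v ++ [!(XA5_s τ), XA5_s τ]).getLast? = some (XA5_s τ) := by simp
        rw [h5, if_neg (by cases XA5_s τ <;> simp)]
        have h6 : (v ++ [!(XA5_s τ), XA5_s τ]) = (v ++ [!(XA5_s τ)]) ++ [XA5_s τ] := by simp
        show (ε', (v ++ [!(XA5_s τ), XA5_s τ]).dropLast.dropLast) = (ε', v)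
        rw [h6, List.dropLast_concat, List.dropLast_concat]
    · simp only [if_true] at e2
      subst e2
      constructor
      · rintro ⟨w, hw⟩
        have h5 : v ++ [!(XA5_s τ)] = w ++ [XA5_s τ, XA5_s τ] := hw
        have h6 := congrArg List.getLast? h5
        simp at h6
      · show (ε', if (v ++ [!(XA5_s τ)]).getLast? = some (!(XA5_s τ)) then _ else _) = _
        have h5 : (v ++ [!(XA5_s τ)]).getLast? = some (!(XA5_s τ)) := by simp
        rw [if_pos h5]
        show (ε', (v ++ [!(XA5_s τ)]).dropLast) = (ε', v)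
        rw [List.dropLast_concat]

lemma XA5_q_card (b : Bool × List Bool) (hb : b.2 ≠ []) :
    {a | a ∈ XA5_Sᶜ ∧ XA5_q a = b}.ncard = 8 := by
  rw [XA5_q_fibre b hb, Set.ncard_image_of_injective _ (XA5_e_inj b)]
  rw [Set.ncard_univ]
  simp

open Classical in
/-- the comparison weight -/
noncomputable def XA5_f (P : Tri) (g : ℝ) (i : Ix) : ℝ :=
  if i ∈ XA5_S then g * len (desc (XA5_p i).2 (XA3_P P (XA5_p i).1)).2.2
  else (2 * g) * len (desc (XA5_q i).2 (XA3_P P (XA5_q i).1)).2.2

lemma XA5_GW (hZ : XZ_stmt) (hT : TOT_stmt) (P : Tri) (hP : Adm P) (g : ℝ) (hg : 0 < g) :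
    GW (XA5_f P g) := by
  obtain ⟨K0, hK0, hK⟩ := XA5_sub XA5_S XA5_p 2 XA3_E XA5_p_fin
    (fun b hb => XA5_p_card b (XA3_notE hb))
  obtain ⟨K0', hK0', hK'⟩ := XA5_sub XA5_Sᶜ XA5_q 8 XA3_E XA5_q_fin
    (fun b hb => XA5_q_card b (XA3_notE hb))
  obtain ⟨hA, b, K, hb, hbK⟩ := XA3_base hZ hT P hP g hg
  obtain ⟨hA', b', K', hb', hbK'⟩ := XA3_base hZ hT P hP (2 * g) (by linarith)
  have hset : ∀ R, {i : Ix | XA5_f P g i ≤ R} =
      {i | i ∈ XA5_S ∧ XA5_p i ∈ XA3_A P (R / g)} ∪
        {i | i ∈ XA5_Sᶜ ∧ XA5_q i ∈ XA3_A P (R / (2 * g))} := by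
    intro R
    ext i
    simp only [Set.mem_ofPred_eq, XA3_A, Set.mem_union, XA5_f, Set.mem_compl_iff]
    have h2g : 0 < 2 * g := by linarith
    by_cases hi : i ∈ XA5_S
    · simp only [hi, if_true, true_and, not_true_eq_false, false_and, or_false]
      rw [le_div_iff₀ hg, mul_comm]
    · simp only [hi, if_false, false_and, not_false_eq_true, true_and, false_or]
      rw [le_div_iff₀ h2g, mul_comm]
  have hfin1 := fun R => (hK _ (hA R)).1
  have hfin2 := fun R => (hK' _ (hA' R)).1
  refine ⟨fun R => by rw [hset]; exact (hfin1 R).union (hfin2 R),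
    2 * b + 8 * b', K0 + K0' + 2 * K + 8 * K', by positivity, fun R hR => ?_⟩
  have hdis : Disjoint {i | i ∈ XA5_S ∧ XA5_p i ∈ XA3_A P (R / g)}
      {i | i ∈ XA5_Sᶜ ∧ XA5_q i ∈ XA3_A P (R / (2 * g))} := by
    rw [Set.disjoint_left]
    rintro i ⟨h1, -⟩ ⟨h2, -⟩
    exact h2 h1
  rw [hset, Set.ncard_union_eq hdis (hfin1 R) (hfin2 R)]
  have h1 := (hK _ (hA R)).2
  have h2 := (hK' _ (hA' R)).2
  have h3 := hbK R hR
  have h4 := hbK' R hR
  have h5 : K0 ≤ K0 * R := by nlinarith
  have h6 : K0' ≤ K0' * R := by nlinarith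
  push_cast at h1 h2 ⊢
  rw [abs_le] at h1 h2 h3 h4 ⊢
  constructor <;> nlinarith [h1.1, h1.2, h2.1, h2.2, h3.1, h3.2, h4.1, h4.2]

lemma XA5_bdd (F : Ix → ℝ) (n : ℕ) : ∃ D : ℝ, 0 ≤ D ∧ ∀ i : Ix, i.2.1.length ≤ n → |F i| ≤ D := by
  classical
  refine ⟨∑ i ∈ (XA5_len_fin n).toFinset, |F i|, Finset.sum_nonneg fun _ _ => abs_nonneg _,
    fun i hi => ?_⟩
  exact Finset.single_le_sum (f := fun i => |F i|) (fun _ _ => abs_nonneg _)
    ((XA5_len_fin n).mem_toFinset.2 hi)

theorem XA5 (hZ : XZ_stmt) (hB : XB_stmt) (hI : XI_stmt) (hT : TOT_stmt) (hXP : XP_stmt) :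
    XA5_stmt := by
  intro ρ hA g hg
  set P := trTri ρ (ga, gb) with hPdef
  obtain ⟨C, hC0, hC⟩ := XA3_XB hB hA
  have h1 := XA5_GW hZ hT P hA g hg
  obtain ⟨D, hD0, hD⟩ := XA5_bdd (fun i => g * max (2 * lx ρ i) (ly ρ i) - XA5_f P g i) 1
  refine hXP _ _ (D + g * (2 * C)) h1 ?_
  have hpos : 0 ≤ g * (2 * C) := by positivity
  have hAdm : ∀ (ε : Bool) (w : List Bool), Adm (desc w (XA3_P P ε)) := by
    intro ε w
    have := (hI ρ hA ε w 0).1
    exact this
  have hnn : ∀ (ε : Bool) (w : List Bool), 0 ≤ len (desc w (XA3_P P ε)).1 ∧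
      0 ≤ len (desc w (XA3_P P ε)).2.1 ∧ 0 ≤ len (desc w (XA3_P P ε)).2.2 := by
    intro ε w
    have h := hAdm ε w
    exact ⟨(len_pos h.x2).le, (len_pos h.y2).le, (len_pos h.z2).le⟩
  rintro ⟨ε, w', τ⟩
  by_cases hlen : w'.length ≤ 1
  · have := hD (ε, w', τ) hlen
    linarith
  -- the last two letters
  have hne : w' ≠ [] := by
    rintro rfl
    simp at hlen
  have hl := List.dropLast_append_getLast hne
  have hne2 : w'.dropLast ≠ [] := by
    intro h
    have := congrArg List.length h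
    rw [List.length_dropLast] at this
    simp at this
    omega
  have hl2 := List.dropLast_append_getLast hne2
  obtain ⟨w, x, y, hw⟩ : ∃ (w : List Bool) (x y : Bool), w' = w ++ [x, y] :=
    ⟨w'.dropLast.dropLast, w'.dropLast.getLast hne2, w'.getLast hne, by
      conv_lhs => rw [← hl, ← hl2]
      simp⟩
  subst hw
  obtain ⟨-, he, ho⟩ := hI ρ hA ε (w ++ [x, y]) τ
  have hPe : (if ε then P else Tw P) = XA3_P P ε := rfl
  rw [← hPdef, hPe] at he ho
  have c0 := hC ε w
  have cx := hC ε (w ++ [x])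
  obtain ⟨n1, n2, n3⟩ := hnn ε w
  obtain ⟨m1, m2, m3⟩ := hnn ε (w ++ [x])
  set Q := desc w (XA3_P P ε) with hQ
  have hd1 : desc (w ++ [x]) (XA3_P P ε) = desc [x] Q := by rw [XA3_desc_append]
  have hd2 : desc (w ++ [x, y]) (XA3_P P ε) = desc [y] (desc [x] Q) := by
    rw [XA3_desc_append]
    cases x <;> rfl
  rw [hd1] at cx m1 m2 m3
  rw [hd2] at he ho
  -- it suffices to bound the difference of the lengths
  have hgen : ∀ t : ℝ, |t| ≤ 2 * C → |g * t| ≤ D + g * (2 * C) := by
    intro t ht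
    rw [abs_mul, abs_of_pos hg]
    have := mul_le_mul_of_nonneg_left ht hg.le
    linarith
  have hLd : ∀ T : Tri, (desc [true] T).1 = T.1 ∧ (desc [true] T).2.1 = T.2.2 := fun T =>
    ⟨rfl, rfl⟩
  have hRd : ∀ T : Tri, (desc [false] T).1 = T.2.2 ∧ (desc [false] T).2.1 = T.2.1 := fun T =>
    ⟨rfl, rfl⟩
  rw [abs_le] at c0 cx
  by_cases hS : ((ε, w ++ [x, y], τ) : Ix) ∈ XA5_S
  · -- first kind
    obtain ⟨v, hv⟩ := hS
    have hv' : w ++ [x, y] = v ++ [XA5_s τ, XA5_s τ] := hv
    obtain ⟨-, hx, hy⟩ := XA5_two _ _ _ _ _ _ hv'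
    have hf : XA5_f P g (ε, w ++ [x, y], τ) = g * len (desc [x] Q).2.2 := by
      unfold XA5_f
      rw [if_pos ⟨v, hv⟩]
      have : XA5_p (ε, w ++ [x, y], τ) = (ε, w ++ [x]) := by
        show (ε, (w ++ [x, y]).dropLast) = (ε, w ++ [x])
        have h6 : (w ++ [x, y]) = (w ++ [x]) ++ [y] := by simp
        rw [h6, List.dropLast_concat]
      rw [this]
      simp only
      rw [hd1]
    rw [hf, ← mul_sub]
    refine hgen _ ?_
    rcases Nat.mod_two_eq_zero_or_one τ.val with h | h
    · have hs : XA5_s τ = true := by simp [XA5_s, h]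
      rw [hs] at hx hy
      subst hx hy
      obtain ⟨e1, e2⟩ := he h
      rw [e1, e2, (hLd _).1, (hLd _).2, (hLd Q).1]
      rw [(hLd Q).1, (hLd Q).2] at cx
      rw [abs_le]
      rcases max_cases (2 * len Q.1) (len (desc [true] Q).2.2) with ⟨hm, hm'⟩ | ⟨hm, hm'⟩ <;>
        rw [hm] <;> constructor <;> linarith [c0.1, c0.2, cx.1, cx.2]
    · have hs : XA5_s τ = false := by simp [XA5_s, h]
      rw [hs] at hx hy
      subst hx hy
      obtain ⟨e1, e2⟩ := ho h
      rw [e1, e2, (hRd _).1, (hRd _).2, (hRd Q).2]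
      rw [(hRd Q).1, (hRd Q).2] at cx
      rw [abs_le]
      rcases max_cases (2 * len Q.2.1) (len (desc [false] Q).2.2) with ⟨hm, hm'⟩ | ⟨hm, hm'⟩ <;>
        rw [hm] <;> constructor <;> linarith [c0.1, c0.2, cx.1, cx.2]
  · by_cases hy : y = !(XA5_s τ)
    · -- one step
      have hf : XA5_f P g (ε, w ++ [x, y], τ) = g * (2 * len (desc [x] Q).2.2) := by
        unfold XA5_f
        rw [if_neg hS]
        have : XA5_q (ε, w ++ [x, y], τ) = (ε, w ++ [x]) := by
          show (ε, if (w ++ [x, y]).getLast? = some (!(XA5_s τ)) then (w ++ [x, y]).dropLast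
            else (w ++ [x, y]).dropLast.dropLast) = (ε, w ++ [x])
          have h6 : (w ++ [x, y]) = (w ++ [x]) ++ [y] := by simp
          rw [if_pos (by rw [h6, List.getLast?_concat, hy]), h6, List.dropLast_concat]
        rw [this]
        simp only
        rw [hd1]
        ring
      rw [hf, ← mul_sub]
      refine hgen _ ?_
      rcases Nat.mod_two_eq_zero_or_one τ.val with h | h
      · have hs : XA5_s τ = true := by simp [XA5_s, h]
        rw [hs] at hy
        simp only [Bool.not_true] at hy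
        subst hy
        obtain ⟨e1, e2⟩ := he h
        rw [e1, e2, (hRd _).1, (hRd _).2, abs_le]
        rcases max_cases (2 * len (desc [x] Q).2.2) (len (desc [x] Q).2.1) with
          ⟨hm, hm'⟩ | ⟨hm, hm'⟩ <;> rw [hm] <;> constructor <;> linarith [cx.1, cx.2]
      · have hs : XA5_s τ = false := by simp [XA5_s, h]
        rw [hs] at hy
        simp only [Bool.not_false] at hy
        subst hy
        obtain ⟨e1, e2⟩ := ho h
        rw [e1, e2, (hLd _).1, (hLd _).2, abs_le]
        rcases max_cases (2 * len (desc [x] Q).2.2) (len (desc [x] Q).1) with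
          ⟨hm, hm'⟩ | ⟨hm, hm'⟩ <;> rw [hm] <;> constructor <;> linarith [cx.1, cx.2]
    · -- two steps
      have hy' : y = XA5_s τ := by
        cases h5 : y <;> cases h6 : XA5_s τ <;> simp_all
      have hx : x = !(XA5_s τ) := by
        by_contra hxn
        apply hS
        have hx' : x = XA5_s τ := by
          cases h5 : x <;> cases h6 : XA5_s τ <;> simp_all
        exact ⟨w, by rw [hx', hy']⟩
      have hf : XA5_f P g (ε, w ++ [x, y], τ) = g * (2 * len Q.2.2) := by
        unfold XA5_f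
        rw [if_neg hS]
        have : XA5_q (ε, w ++ [x, y], τ) = (ε, w) := by
          show (ε, if (w ++ [x, y]).getLast? = some (!(XA5_s τ)) then (w ++ [x, y]).dropLast
            else (w ++ [x, y]).dropLast.dropLast) = (ε, w)
          have h6 : (w ++ [x, y]) = (w ++ [x]) ++ [y] := by simp
          rw [if_neg (by
            rw [h6, List.getLast?_concat]
            intro h7
            exact hy (Option.some.inj h7)), h6, List.dropLast_concat, List.dropLast_concat]
        rw [this]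
        simp only
        rw [← hQ]
        ring
      rw [hf, ← mul_sub]
      refine hgen _ ?_
      rcases Nat.mod_two_eq_zero_or_one τ.val with h | h
      · have hs : XA5_s τ = true := by simp [XA5_s, h]
        rw [hs] at hx hy'
        simp only [Bool.not_true] at hx
        subst hx hy'
        obtain ⟨e1, e2⟩ := he h
        rw [e1, e2, (hLd _).1, (hLd _).2, (hRd Q).1]
        rw [(hRd Q).1, (hRd Q).2] at cx
        rw [abs_le]
        rcases max_cases (2 * len Q.2.2) (len (desc [false] Q).2.2) with ⟨hm, hm'⟩ | ⟨hm, hm'⟩ <;>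
          rw [hm] <;> constructor <;> linarith [c0.1, c0.2, cx.1, cx.2]
      · have hs : XA5_s τ = false := by simp [XA5_s, h]
        rw [hs] at hx hy'
        simp only [Bool.not_false] at hx
        subst hx hy'
        obtain ⟨e1, e2⟩ := ho h
        rw [e1, e2, (hRd _).1, (hRd _).2, (hLd Q).2]
        rw [(hLd Q).1, (hLd Q).2] at cx
        rw [abs_le]
        rcases max_cases (2 * len Q.2.2) (len (desc [true] Q).2.2) with ⟨hm, hm'⟩ | ⟨hm, hm'⟩ <;>
          rw [hm] <;> constructor <;> linarith [c0.1, c0.2, cx.1, cx.2]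

end AM
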